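import Pool.Agent.MP_c69980_ag.H4.SpecC

/-!
Lifts on discs of any radius, and curves as coverings of the punctured plane.
-/

set_option autoImplicit false

namespace Pool.Agent.MP_c69980_ag.H11

open MvPolynomial Metric Filter Topology Set
open H60 H4

theorem lift2 : Lift2Stmt := fun n G s hs hG ⟨a, a1, a2⟩ => by
  let U := closedBall (0 : ℂ) s
  have hU : U ⊆ ball 0 1 := closedBall_subset_ball hs
  have an := hG.analyticOnNhd isOpen_ball
  have ord : ∀ u : U, meromorphicOrderAt G u ≠ ⊤ := fun u => by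
    rw [meromorphicOrderAt_ne_top_iff_eventually_ne_zero (an u (hU u.2)).meromorphicAt]
    refine (an u (hU u.2)).eventually_eq_zero_or_eventually_ne_zero.resolve_left fun h => a2 ?_
    exact an.eqOn_zero_of_preconnected_of_eventuallyEq_zero (convex_ball _ _).isPreconnected
      (hU u.2) h a1
  obtain ⟨Ψ, G1, G2, G3⟩ := (an.mono hU).meromorphicOn.extract_zeros_poles ord
    ((MeromorphicOn.divisor G U).finiteSupport (isCompact_closedBall _ _))
  have hφ : ∀ z, AnalyticAt ℂ (∏ᶠ u, (· - u) ^ MeromorphicOn.divisor G U u) z := fun z =>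
    Function.FactorizedRational.analyticAt (MeromorphicOn.AnalyticOnNhd.divisor_nonneg
      (an.mono hU) z)
  refine ⟨_, Ψ, fun z _ => (hφ z).differentiableAt.differentiableWithinAt,
    ⟨G1.differentiableOn.mono ball_subset_closedBall,
      fun z hz => G2 ⟨z, ball_subset_closedBall hz⟩⟩, fun z hz => ?_⟩
  have hz' : z ∈ U := ball_subset_closedBall hz
  refine tendsto_nhds_unique_of_eventuallyEq (l := 𝓝[≠] z)
    ((an z (hU hz')).continuousAt.mono_left nhdsWithin_le_nhds)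
    (((hφ z).continuousAt.smul (G1 z hz').continuousAt).mono_left nhdsWithin_le_nhds) ?_
  filter_upwards [mem_codiscreteWithin_iff_forall_mem_nhdsNE.1 G3 z hz', mem_nhdsWithin_of_mem_nhds
    (mem_of_superset (isOpen_ball.mem_nhds hz) ball_subset_closedBall)] with s h1 h4
  exact h1.resolve_right fun q => q h4

theorem lift3 : Lift3Stmt := fun N f r hr hf => by
  obtain ⟨i, hi⟩ := Function.ne_iff.1 (f 0).rep_nonzero
  let v : ℂ → Fin N → ℂ := fun z => nrm i (f z).rep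
  let U := closedBall (0 : ℂ) 1
  have hU : U ⊆ ball 0 r := closedBall_subset_ball hr
  have loc : ∀ t ∈ U, ∃ g : ℂ → Fin N → ℂ, AnalyticAt ℂ g t ∧ (∃ h : g t ≠ 0,
      f t = Projectivization.mk ℂ (g t) h) ∧ ∀ᶠ s in 𝓝 t, v s = (g s i)⁻¹ • g s := fun t ht => by
    obtain ⟨g, g1, g2⟩ := hf t (hU ht)
    refine ⟨g, g1, g2.self_of_nhds, g2.mono fun s hs => ?_⟩
    obtain ⟨h, hs⟩ := hs
    simp only [v, hs, nrm_mk]
    rfl
  have mer : MeromorphicOn v U := fun t ht => by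
    obtain ⟨g, g1, -, g2⟩ := loc t ht
    exact (((analyticAt_pi_iff.1 g1 i).meromorphicAt.inv).smul g1.meromorphicAt).congr
      (eventually_nhdsWithin_of_eventually_nhds (g2.mono fun s hs => hs.symm))
  have m0 : (0 : ℂ) ∈ U := mem_closedBall_self (by norm_num)
  have ord : ∀ u : U, meromorphicOrderAt v u ≠ ⊤ := by
    refine (mer.exists_meromorphicOrderAt_ne_top_iff_forall
      ⟨⟨0, m0⟩, (convex_closedBall _ _).isPreconnected⟩).1 ⟨⟨0, m0⟩, ?_⟩
    rw [meromorphicOrderAt_ne_top_iff_eventually_ne_zero (mer 0 m0)]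
    obtain ⟨g, g1, ⟨h, g3⟩, g2⟩ := loc 0 m0
    have g0 : g 0 i ≠ 0 := fun z => by
      obtain ⟨t, -, ht⟩ := rep_mk h
      exact hi (by simp [g3, ht, z])
    refine eventually_nhdsWithin_of_eventually_nhds ?_
    filter_upwards [g2, (analyticAt_pi_iff.1 g1 i).continuousAt.eventually_ne g0] with s h1 h2 h3
    have := congrFun (h1.symm.trans h3) i
    simp [h2] at this
  obtain ⟨G, G1, G2, G3⟩ := mer.extract_zeros_poles ord
    ((MeromorphicOn.divisor v U).finiteSupport (isCompact_closedBall _ _))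
  refine ⟨G, ⟨G1.differentiableOn.mono ball_subset_closedBall,
    fun z hz => G2 ⟨z, ball_subset_closedBall hz⟩⟩, fun z hz => ?_⟩
  have hz' : z ∈ U := ball_subset_closedBall hz
  obtain ⟨g, g1, ⟨h, g3⟩, g2⟩ := loc z hz'
  have G0 : G z ≠ 0 := G2 ⟨z, hz'⟩
  obtain ⟨b, hb⟩ := Function.ne_iff.1 G0
  refine ⟨G0, g3.trans ((Projectivization.mk_eq_mk_iff' _ _ _ _ _).2 ⟨g z b / G z b, ?_⟩)⟩
  ext a
  have c1 : ∀ a, ContinuousAt (fun s => g s a) z := fun a => (analyticAt_pi_iff.1 g1 a).continuousAt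
  have c2 : ∀ a, ContinuousAt (fun s => G s a) z := fun a =>
    (analyticAt_pi_iff.1 (G1 z hz') a).continuousAt
  have e : (fun s => g s b * G s a) =ᶠ[𝓝[≠] z] fun s => g s a * G s b := by
    filter_upwards [mem_codiscreteWithin_iff_forall_mem_nhdsNE.1 G3 z hz',
      (meromorphicOrderAt_ne_top_iff_eventually_ne_zero (mer z hz')).1 (ord ⟨z, hz'⟩),
      eventually_nhdsWithin_of_eventually_nhds g2, mem_nhdsWithin_of_mem_nhds
        (mem_of_superset (isOpen_ball.mem_nhds hz) ball_subset_closedBall)] with s h1 h2 h3 h4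
    have h5 := h3.symm.trans (h1.resolve_right fun q => q h4)
    have h6 : (g s i)⁻¹ ≠ 0 := fun q => h2 (by rw [h3, q, zero_smul])
    have h7 := congrFun h5 a
    have h8 := congrFun h5 b
    simp only [Pi.smul_apply, Pi.smul_apply', smul_eq_mul] at h7 h8
    refine mul_left_cancel₀ h6 ?_
    rw [← mul_assoc, ← mul_assoc, h7, h8]
    ring
  have := tendsto_nhds_unique_of_eventuallyEq (((c1 b).mul (c2 a)).mono_left nhdsWithin_le_nhds)
    (((c1 a).mul (c2 b)).mono_left nhdsWithin_le_nhds) e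
  have hb' : G z b ≠ 0 := hb
  simp only [Pi.smul_apply, smul_eq_mul, Pi.mul_apply] at this ⊢
  field_simp
  linear_combination this

lemma ee_diff {ψ σ : ℂ → ℂ} {O : Set ℂ} (hψ : DifferentiableOn ℂ ψ O)
    (hσ : DifferentiableOn ℂ σ O) (Q : Polynomial (Polynomial ℂ)) :
    DifferentiableOn ℂ (fun z => Q.evalEval (ψ z) (σ z)) O := by
  induction Q using Polynomial.induction_on with
  | C p =>
    simp only [Polynomial.evalEval_C]
    exact p.differentiable.comp_differentiableOn hψ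
  | add p q hp hq =>
    simp only [Polynomial.evalEval_add]
    exact hp.add hq
  | monomial k p h =>
    simp only [pow_succ, ← mul_assoc, Polynomial.evalEval_mul, Polynomial.evalEval_X] at h ⊢
    exact h.mul hσ

variable {m n : ℕ} {C : Set (PS m)}

lemma ev_aev (x : Fin m → ℂ) (F : Fin n → PR m) (R : PR n) :
    eval x (aeval F R) = eval (fun j => eval x (F j)) R := by
  induction R using MvPolynomial.induction_on with
  | C c => simp
  | add p q hp hq => simp only [map_add, hp, hq]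
  | mul_X p i hp => simp only [map_mul, hp, aeval_X, eval_X]

open Classical in
/-- The map induced on the cone. -/
noncomputable def cm (f : C → PS n) (c₀ : C) (x : Fin m → ℂ) : PS n :=
  if h : x ∈ Cone C then f ⟨Projectivization.mk ℂ x h.1, h.2⟩ else f c₀

lemma cm_eq {f : C → PS n} {c₀ c : C} {x : Fin m → ℂ} {h : x ≠ 0}
    (e : c.1 = Projectivization.mk ℂ x h) : cm f c₀ x = f c := by
  have hx : x ∈ Cone C := ⟨h, e ▸ c.2⟩
  rw [cm, dif_pos hx]
  exact congrArg f (Subtype.ext e.symm)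

lemma cm_holo {f : C → PS n} (hf : IsMor f) (c₀ : C) {x : ℂ → Fin m → ℂ} {s : ℝ}
    (hx : Dk C 0 s x) : Holo (ball 0 s) fun z => cm f c₀ (x z) := fun t ht => by
  obtain ⟨h0, h1⟩ := hx.2 t ht
  obtain ⟨d, e, g, F, hg, hF, g0, H⟩ := hf ⟨_, h1⟩
  have an : ∀ P : PR m, AnalyticAt ℂ (fun z => eval (x z) P) t := fun P =>
    (eval_diff hx.1 P).analyticAt (isOpen_ball.mem_nhds ht)
  refine ⟨fun z j => eval (x z) (F j), analyticAt_pi_iff.2 fun j => an _, ?_⟩
  filter_upwards [(an g).continuousAt.eventually_ne ((eval_mk hg h0).not.1 g0),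
    isOpen_ball.mem_nhds ht] with z hz hz'
  obtain ⟨k0, k1⟩ := hx.2 z hz'
  obtain ⟨h, hh⟩ := H ⟨_, k1⟩ ((eval_mk hg k0).not.2 hz)
  obtain ⟨τ, τ0, hτ⟩ := rep_mk k0
  have e1 : (fun j => eval (Projectivization.mk ℂ (x z) k0).rep (F j)) =
      τ ^ d • fun j => eval (x z) (F j) := by
    ext j
    rw [hτ, eval_smul_hom (hF j)]
    rfl
  have n0 : (fun j => eval (x z) (F j)) ≠ 0 := fun q => h (by rw [e1, q, smul_zero])
  refine ⟨n0, ?_⟩
  rw [cm_eq (c := ⟨_, k1⟩) rfl, hh]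
  exact (Projectivization.mk_eq_mk_iff' _ _ _ _ _).2 ⟨τ ^ d, e1.symm⟩

theorem curve (hM : ModelStmt) (hR : RootStmt) : CurveStmt := by
  intro m C L _ _ w hC hw ht
  classical
  obtain ⟨P, S, W, E, P1, P0, hS, hE, M1, M2, M3⟩ := hM m C L w hC hw ht
  obtain ⟨p₀, hp₀⟩ := hC.1.1
  let c₀ : C := ⟨p₀, hp₀⟩
  let x : ℂ → ℂ → Fin m → ℂ := fun t u i => (W i).evalEval t u
  refine ⟨S, P.natDegree, hE.toFinset.card, hS, P0, fun n f hf => ?_⟩
  refine ⟨fun t => {y | t ∉ S ∧ ∃ u, P.evalEval t u = 0 ∧ ∃ c : C,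
    (∃ h, c.1 = Projectivization.mk ℂ (x t u) h) ∧ y = f c}, ?_, ?_, ?_, ?_⟩
  · rintro t y ⟨-, u, -, c, -, rfl⟩
    exact ⟨c, rfl⟩
  · intro ψ s hs hψ hψS
    obtain ⟨σ, σ1, σ2⟩ := hR P ψ s P1 hψ fun z hz y hy => (M1 _ (hψS z hz) y hy).1
    have dk : ∀ i, Dk C 0 s fun z => x (ψ z) (σ i z) := fun i =>
      ⟨differentiableOn_pi.2 fun j => ee_diff hψ (σ1 i) (W j),
        fun z hz => (M1 _ (hψS z hz) _ ((σ2 z hz _).2 ⟨i, rfl⟩)).2⟩
    choose F F1 F2 using fun i => lift3 n _ s hs (cm_holo hf c₀ (dk i))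
    refine ⟨F, F1, fun z hz y => ?_⟩
    have hz' : z ∈ ball (0 : ℂ) s := ball_subset_ball hs.le hz
    constructor
    · rintro ⟨-, u, hu, c, ⟨h, hc⟩, rfl⟩
      obtain ⟨i, rfl⟩ := (σ2 z hz' u).1 hu
      obtain ⟨k, hk⟩ := F2 i z hz
      exact ⟨i, k, (cm_eq hc).symm.trans hk⟩
    · rintro ⟨i, h, rfl⟩
      obtain ⟨k0, k1⟩ := (dk i).2 z hz'
      obtain ⟨k, hk⟩ := F2 i z hz
      exact ⟨hψS z hz', σ i z, (σ2 z hz' _).2 ⟨i, rfl⟩, ⟨_, k1⟩, ⟨k0, rfl⟩,
        hk.symm.trans (cm_eq (c := ⟨_, k1⟩) rfl)⟩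
  · rintro R d hd ⟨c, hc⟩
    obtain ⟨d', e, g, F, hg, hF, g0, H⟩ := hf c
    have hR' : (g * aeval F R).IsHomogeneous (e + d' * d) := hg.mul (hd.aeval F hF)
    have key : ∀ q : C, eval q.1.rep g ≠ 0 →
        (eval (f q).rep R = 0 ↔ eval q.1.rep (aeval F R) = 0) := fun q hq => by
      obtain ⟨h, hh⟩ := H q hq
      rw [hh, eval_mk hd, ev_aev]
    refine (M3 _ _ hR' ⟨c.1, c.2, ?_⟩).subset ?_
    · rw [map_mul]
      exact mul_ne_zero g0 ((key c g0).not.1 hc)
    · rintro t ⟨y, ⟨-, u, hu, q, ⟨h, hq⟩, rfl⟩, hy⟩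
      refine ⟨u, hu, (eval_mk hR' h).1 ?_⟩
      rw [← hq, map_mul]
      by_cases k : eval q.1.rep g = 0
      · rw [k, zero_mul]
      · rw [(key q k).1 hy, mul_zero]
  · intro Z N hN
    let T : Set ℂ := {t | t ∉ S ∧ ∃ c ∈ Z, t ∉ S ∧ ∃ u, P.evalEval t u = 0 ∧ ∃ c' : C,
      (∃ h, c'.1 = Projectivization.mk ℂ (x t u) h) ∧ f c = f c'}
    suffices h : ∃ τ : Finset ℂ, (τ : Set ℂ) ⊆ T ∧ τ.card = N by
      obtain ⟨τ, h1, h2⟩ := h
      exact ⟨τ, h2, fun t ht => h1 ht⟩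
    rcases T.finite_or_infinite with hT | hT
    swap
    · exact hT.exists_subset_card_eq N
    by_cases hle : N ≤ hT.toFinset.card
    · obtain ⟨τ, h1, h2⟩ := Finset.exists_subset_card_eq hle
      exact ⟨τ, fun t ht => hT.mem_toFinset.1 (h1 ht), h2⟩
    exfalso
    let φ : ℂ → ℂ → PS m := fun t u => if h : x t u ≠ 0 then Projectivization.mk ℂ _ h else p₀
    let B : ℂ → Finset (PS m) := fun t =>
      (P.map (Polynomial.evalRingHom t)).roots.toFinset.image (φ t)
    have hB : ∀ t ∈ hT.toFinset, (B t).card ≤ P.natDegree := fun t _ =>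
      Finset.card_image_le.trans ((Multiset.toFinset_card_le _).trans
        ((Polynomial.card_roots' _).trans (P1.natDegree_map _).le))
    have sub : Subtype.val '' Z ⊆ (hE.toFinset ∪ hT.toFinset.biUnion B : Finset (PS m)) := by
      rintro _ ⟨c, hc, rfl⟩
      rw [Finset.mem_coe, Finset.mem_union]
      by_cases k : c.1 ∈ E
      · exact Or.inl (hE.mem_toFinset.2 k)
      obtain ⟨t, tS, u, hu, h, hh⟩ := M2 c.1 c.2 k
      refine Or.inr (Finset.mem_biUnion.2 ⟨t, hT.mem_toFinset.2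
        ⟨tS, c, hc, tS, u, hu, c, ⟨h, hh⟩, rfl⟩, Finset.mem_image.2 ⟨u, ?_, ?_⟩⟩)
      · rw [Multiset.mem_toFinset, Polynomial.mem_roots (P1.map _).ne_zero, Polynomial.IsRoot,
          Polynomial.map_evalRingHom_eval, hu]
      · exact (dif_pos h).trans hh.symm
    have h1 := encard_le_encard sub
    rw [Subtype.val_injective.encard_image, encard_coe_eq_coe_finsetCard] at h1
    have h2 : P.natDegree * N + hE.toFinset.card ≤ _ := ENat.natCast_le_natCast.1 (hN.trans h1)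
    have h3 := Finset.card_union_le hE.toFinset (hT.toFinset.biUnion B)
    have h4 := Finset.card_biUnion_le_card_mul _ _ _ hB
    have h5 : hT.toFinset.card + 1 ≤ N := by omega
    nlinarith

end Pool.Agent.MP_c69980_ag.H11
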